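import Mathlib
import Pool.Agent.Run7.h53.SX.Thm
import Pool.Agent.Run7.h53.VD.Main

/-!
# A combination with real coefficients vanishes for finitely many common last parts (helper53)
-/

set_option autoImplicit false

namespace Run7.h53.FW

open Filter Topology Finset
open Pool.Agent.H447R2.MZ (H H_nil H_cons H_cons_zero H_cons_succ H_nonneg Adm val tendsto_H H_le_val H_mono)
open Run7.h53.VD (T T_nil T_step T_tendsto T_zero T_nonneg T_le adm_append_left tailF ep_le_H Zb)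
open Run7.h53.SX (IE rf rf_ge rf_pos tail_exp tail_flat H_small H_pos hasSum_split)

/-- the combination of the tails has constant sign far away -/
theorem tail_sign {U : Finset (List ℕ)} (hU : ∀ u ∈ U, Adm u) {c : List ℕ → ℝ}
    (hc : ∃ u ∈ U, c u ≠ 0) :
    ∃ (σ : ℝ) (n0 : ℕ), (σ = 1 ∨ σ = -1) ∧ ∀ m, n0 ≤ m → 0 < σ * tailF U c m := by
  classical
  have hexp : ∀ u, ∃ α : ℕ → ℚ, u ∈ U → IE (T u) α := by
    intro u
    by_cases hu : u ∈ U
    · obtain ⟨α, _, h⟩ := tail_exp u (hU u hu)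
      exact ⟨α, fun _ => h⟩
    · exact ⟨0, fun h => absurd h hu⟩
  choose α hα using hexp
  have hKex : ∀ u (k : ℕ), ∃ K : ℝ, 0 ≤ K ∧ (u ∈ U → ∀ m : ℕ, 1 ≤ m →
      |T u m - ∑ j ∈ Finset.range (k + 1), (α u j : ℝ) * rf j m| ≤ K * ((m : ℝ) ^ (k + 1))⁻¹) := by
    intro u k
    by_cases hu : u ∈ U
    · obtain ⟨K, hK, h⟩ := hα u hu k
      exact ⟨K, hK, fun _ => h⟩
    · exact ⟨0, le_rfl, fun h => absurd h hu⟩
  choose Kc hKc0 hKc using hKex
  have hcomb : ∀ (k m : ℕ), 1 ≤ m →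
      |tailF U c m - ∑ j ∈ Finset.range (k + 1), (∑ u ∈ U, c u * (α u j : ℝ)) * rf j m| ≤
        (∑ u ∈ U, |c u| * Kc u k) * ((m : ℝ) ^ (k + 1))⁻¹ := by
    intro k m hm
    have e1 : tailF U c m - ∑ j ∈ Finset.range (k + 1), (∑ u ∈ U, c u * (α u j : ℝ)) * rf j m =
        ∑ u ∈ U, c u * (T u m - ∑ j ∈ Finset.range (k + 1), (α u j : ℝ) * rf j m) := by
      unfold tailF
      simp only [mul_sub, Finset.sum_sub_distrib, Finset.mul_sum, Finset.sum_mul]
      congr 1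
      rw [Finset.sum_comm]
      exact Finset.sum_congr rfl fun u _ => Finset.sum_congr rfl fun j _ => by ring
    rw [e1, Finset.sum_mul]
    refine (Finset.abs_sum_le_sum_abs _ _).trans (Finset.sum_le_sum fun u hu => ?_)
    rw [abs_mul, mul_assoc]
    exact mul_le_mul_of_nonneg_left (hKc u k hu m hm) (abs_nonneg _)
  have hex : ∃ k, ∑ u ∈ U, c u * (α u k : ℝ) ≠ 0 := by
    by_contra hcon
    push Not at hcon
    obtain ⟨u, hu, h1⟩ := hc
    refine h1 (tail_flat hU (fun E => ⟨∑ u ∈ U, |c u| * Kc u E, fun m hm => ?_⟩) u hu)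
    have h4 := hcomb E m hm
    simp only [hcon, zero_mul, Finset.sum_const_zero, sub_zero] at h4
    exact h4
  have hk0 := Nat.find_spec hex
  have hmin : ∀ j < Nat.find hex, ∑ u ∈ U, c u * (α u j : ℝ) = 0 := by
    intro j hj
    have := Nat.find_min hex hj
    push Not at this
    exact this
  set k0 := Nat.find hex with hk0def
  set A : ℝ := ∑ u ∈ U, c u * (α u k0 : ℝ) with hA
  set K : ℝ := ∑ u ∈ U, |c u| * Kc u k0 with hK
  have hK0 : 0 ≤ K := Finset.sum_nonneg fun u _ => mul_nonneg (abs_nonneg _) (hKc0 u k0)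
  set P : ℝ := ((k0 : ℝ) + 1) ^ k0 with hP
  have hP0 : 0 < P := by positivity
  have hA0 : 0 < |A| := abs_pos.2 hk0
  refine ⟨SignType.sign A, ⌈K * P / |A|⌉₊ + 1, ?_, fun m hm => ?_⟩
  · rcases lt_or_gt_of_ne hk0 with h | h
    · right
      rw [sign_neg h]; simp
    · left
      rw [sign_pos h]; simp
  have hm1 : 1 ≤ m := by omega
  have hm0 : (0 : ℝ) < m := by exact_mod_cast hm1
  have hmK : K * P / |A| < m := by
    refine (Nat.le_ceil _).trans_lt ?_
    exact_mod_cast (by omega : ⌈K * P / |A|⌉₊ < m)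
  have h1 := hcomb k0 m hm1
  rw [Finset.sum_range_succ, Finset.sum_eq_zero, zero_add] at h1
  swap
  · intro j hj
    rw [hmin j (Finset.mem_range.1 hj), zero_mul]
  have h2 : |A| * (P⁻¹ * ((m : ℝ) ^ k0)⁻¹) ≤ |A| * rf k0 m :=
    mul_le_mul_of_nonneg_left (rf_ge k0 m hm1) hA0.le
  have h3 : K * ((m : ℝ) ^ (k0 + 1))⁻¹ < |A| * (P⁻¹ * ((m : ℝ) ^ k0)⁻¹) := by
    rw [div_lt_iff₀ hA0] at hmK
    have e1 : |A| * (P⁻¹ * ((m : ℝ) ^ k0)⁻¹) = (m * |A|) * (P⁻¹ * ((m : ℝ) ^ (k0 + 1))⁻¹) := by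
      rw [pow_succ]
      field_simp
    have e2 : K * ((m : ℝ) ^ (k0 + 1))⁻¹ = (K * P) * (P⁻¹ * ((m : ℝ) ^ (k0 + 1))⁻¹) := by
      field_simp
    rw [e1, e2]
    exact mul_lt_mul_of_pos_right hmK (by positivity)
  have h6 : (SignType.sign A : ℝ) * A = |A| := by
    rw [mul_comm]
    exact self_mul_sign A
  have h7 : |(SignType.sign A : ℝ)| = 1 := by
    rcases lt_or_gt_of_ne hk0 with h | h
    · rw [sign_neg h]; simp
    · rw [sign_pos h]; simp
  have h8 : |(SignType.sign A : ℝ) * (tailF U c m - A * rf k0 m)| ≤ K * ((m : ℝ) ^ (k0 + 1))⁻¹ := by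
    rw [abs_mul, h7, one_mul]
    exact h1
  have h9 := neg_abs_le ((SignType.sign A : ℝ) * (tailF U c m - A * rf k0 m))
  have h10 : (SignType.sign A : ℝ) * tailF U c m =
      (SignType.sign A : ℝ) * (tailF U c m - A * rf k0 m) + |A| * rf k0 m := by
    rw [← h6]
    ring
  rw [h10]
  linarith

lemma T_le_val {p : List ℕ} (hp : Adm p) (M : ℕ) : T p M ≤ val p :=
  ciSup_le fun N => (ep_le_H p M N).trans (H_le_val p hp N)

lemma tail_bdd {U : Finset (List ℕ)} (hU : ∀ u ∈ U, Adm u) (c : List ℕ → ℝ) :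
    ∃ B : ℝ, 0 < B ∧ ∀ m, |tailF U c m| ≤ B := by
  have hv : ∀ u ∈ U, 0 ≤ val u := fun u hu => (T_nonneg (hU u hu) 0).trans (T_le_val (hU u hu) 0)
  refine ⟨∑ u ∈ U, |c u| * val u + 1, ?_, fun m => ?_⟩
  · have := Finset.sum_nonneg fun u hu => mul_nonneg (abs_nonneg (c u)) (hv u hu)
    linarith
  · have h1 : |tailF U c m| ≤ ∑ u ∈ U, |c u| * val u := by
      unfold tailF
      refine (Finset.abs_sum_le_sum_abs _ _).trans (Finset.sum_le_sum fun u hu => ?_)
      rw [abs_mul, abs_of_nonneg (T_nonneg (hU u hu) m)]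
      exact mul_le_mul_of_nonneg_left (T_le_val (hU u hu) m) (abs_nonneg _)
    linarith

/-- the truncated sums grow at most polynomially, with the minimal value as the constant -/
lemma H_growth (t : List ℕ) (n : ℕ) : H t n ≤ (n : ℝ) ^ t.length * H t t.length := by
  induction t generalizing n with
  | nil => rw [H_nil, H_nil]; simp
  | cons a t ih =>
    set k := t.length with hk
    have e1 : H (a :: t) (k + 1) = (((k + 1 : ℕ) : ℝ) ^ a)⁻¹ * H t k := by
      rw [H_cons, Finset.sum_range_succ, Finset.sum_eq_zero, zero_add]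
      intro j hj
      rw [H_small t j (by rw [← hk]; exact Finset.mem_range.1 hj), mul_zero]
    rw [List.length_cons, ← hk, e1, H_cons]
    have h1 : ∀ j ∈ Finset.range n, (((j + 1 : ℕ) : ℝ) ^ a)⁻¹ * H t j ≤
        (n : ℝ) ^ k * ((((k + 1 : ℕ) : ℝ) ^ a)⁻¹ * H t k) := by
      intro j hj
      have hj' := Finset.mem_range.1 hj
      have hHk : 0 ≤ H t k := H_nonneg _ _
      by_cases hjk : j < k
      · rw [H_small t j (by rw [← hk]; exact hjk), mul_zero]
        positivity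
      · have h2 : (((j + 1 : ℕ) : ℝ) ^ a)⁻¹ ≤ (((k + 1 : ℕ) : ℝ) ^ a)⁻¹ := by
          apply inv_anti₀ (by positivity)
          apply pow_le_pow_left₀ (by positivity)
          exact_mod_cast (by omega : k + 1 ≤ j + 1)
        have h3 : H t j ≤ (n : ℝ) ^ k * H t k := by
          refine (ih j).trans ?_
          refine mul_le_mul_of_nonneg_right ?_ hHk
          apply pow_le_pow_left₀ (by positivity)
          exact_mod_cast hj'.le
        calc (((j + 1 : ℕ) : ℝ) ^ a)⁻¹ * H t j ≤ (((k + 1 : ℕ) : ℝ) ^ a)⁻¹ * ((n : ℝ) ^ k * H t k) :=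
              mul_le_mul h2 h3 (H_nonneg _ _) (by positivity)
          _ = _ := by ring
    refine (Finset.sum_le_sum h1).trans (le_of_eq ?_)
    rw [Finset.sum_const, Finset.card_range, nsmul_eq_mul, pow_succ]
    ring

lemma sum_hasSum {U : Finset (List ℕ)} (c : List ℕ → ℝ) {a : ℕ} {t : List ℕ}
    (hadm : ∀ u ∈ U, Adm (u ++ a :: t)) :
    HasSum (fun n => H t n * (((n + 1 : ℕ) : ℝ) ^ a)⁻¹ * tailF U c (n + 1))
      (∑ u ∈ U, c u * val (u ++ a :: t)) := by
  have h1 := hasSum_sum (s := U) fun u hu => (hasSum_split (hadm u hu)).mul_left (c u)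
  refine h1.congr_fun ?_ |> id
  intro n
  unfold tailF
  rw [Finset.mul_sum]
  exact Finset.sum_congr rfl fun u _ => by ring

/-- long words give no zero -/
theorem long_ne {U : Finset (List ℕ)} (hU : ∀ u ∈ U, Adm u) {c : List ℕ → ℝ}
    (hc : ∃ u ∈ U, c u ≠ 0) : ∃ n0 : ℕ, ∀ s ∈ Zb U c, s.length ≤ n0 := by
  obtain ⟨σ, n0, hσ, hpos⟩ := tail_sign hU hc
  refine ⟨n0, fun s hs => ?_⟩
  obtain ⟨hne, hadm, hz⟩ := hs
  obtain ⟨a, t, rfl⟩ := List.exists_cons_of_ne_nil hne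
  by_contra hcon
  rw [List.length_cons, not_le] at hcon
  have h1 := (sum_hasSum c hadm).mul_left σ
  rw [hz, mul_zero] at h1
  have h2 := le_hasSum h1 t.length fun n _ => ?_
  · have h3 : 0 < σ * (H t t.length * (((t.length + 1 : ℕ) : ℝ) ^ a)⁻¹ * tailF U c (t.length + 1)) := by
      have h4 := hpos (t.length + 1) (by omega)
      have h5 := H_pos t (le_refl t.length)
      calc (0 : ℝ) < (H t t.length * (((t.length + 1 : ℕ) : ℝ) ^ a)⁻¹) *
            (σ * tailF U c (t.length + 1)) := by positivity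
        _ = _ := by ring
    linarith
  · by_cases hn : n < t.length
    · rw [H_small t n hn]; simp
    · have h4 := hpos (n + 1) (by omega)
      have h5 : 0 ≤ H t n * (((n + 1 : ℕ) : ℝ) ^ a)⁻¹ := mul_nonneg (H_nonneg _ _) (by positivity)
      calc (0 : ℝ) ≤ (H t n * (((n + 1 : ℕ) : ℝ) ^ a)⁻¹) * (σ * tailF U c (n + 1)) :=
            mul_nonneg h5 h4.le
        _ = _ := by ring

lemma adm_two : Adm [2] :=
  ⟨fun x hx => by rw [List.mem_singleton] at hx; omega, fun a t h => by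
    have := (List.cons.inj h).1; omega⟩

lemma hasSum_two : HasSum (fun n : ℕ => (((n + 1 : ℕ) : ℝ) ^ 2)⁻¹) (val [2]) := by
  have h := hasSum_split (u := []) (a := 2) (s := []) (by simpa using adm_two)
  rw [List.nil_append] at h
  refine h.congr_fun (fun n => ?_) |> id
  rw [H_nil, T_nil]
  ring

/-- one dominating term -/
lemma dominate {f : ℕ → ℝ} (h0 : HasSum f 0) (m : ℕ) {ε X Y : ℝ} (hY : 0 ≤ Y) (hm : X ≤ ε * f m)
    (hf : ∀ n, n ≠ m → -(Y * (((n + 1 : ℕ) : ℝ) ^ 2)⁻¹) ≤ ε * f n) : X ≤ Y * val [2] := by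
  have h1 : HasSum (fun n => (if n = m then X else 0) - Y * (((n + 1 : ℕ) : ℝ) ^ 2)⁻¹)
      (X - Y * val [2]) := (hasSum_ite_eq m X).sub (hasSum_two.mul_left Y)
  have h2 := h0.mul_left ε
  rw [mul_zero] at h2
  have h3 := hasSum_le (fun n => ?_) h1 h2
  · linarith
  · by_cases hn : n = m
    · subst hn
      rw [if_pos rfl]
      have : 0 ≤ Y * (((n + 1 : ℕ) : ℝ) ^ 2)⁻¹ := by positivity
      linarith
    · rw [if_neg hn, zero_sub]
      exact hf n hn

lemma pow_ratio_large (C : ℝ) (m : ℕ) : ∃ A : ℕ, ∀ a, A ≤ a → C * ((m : ℝ) + 1) ^ a < ((m : ℝ) + 2) ^ a := by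
  have h1 : 1 < ((m : ℝ) + 2) / (m + 1) := by
    rw [lt_div_iff₀ (by positivity)]
    linarith
  obtain ⟨A, hA⟩ := eventually_atTop.1 ((tendsto_pow_atTop_atTop_of_one_lt h1).eventually_gt_atTop C)
  refine ⟨A, fun a ha => ?_⟩
  have h2 := hA a ha
  rw [div_pow, lt_div_iff₀ (by positivity)] at h2
  exact h2

/-- a large first letter gives no zero -/
theorem letter_ne {U : Finset (List ℕ)} (hU : ∀ u ∈ U, Adm u) {c : List ℕ → ℝ}
    (hc : ∃ u ∈ U, c u ≠ 0) (k : ℕ) : ∃ A : ℕ, ∀ (a : ℕ) (t : List ℕ), t.length = k →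
      (a :: t) ∈ Zb U c → a < A := by
  obtain ⟨σ, n0, hσ, hpos⟩ := tail_sign hU hc
  have hex : ∃ m, k ≤ m ∧ tailF U c (m + 1) ≠ 0 := by
    refine ⟨max k n0, le_max_left _ _, fun h => ?_⟩
    have := hpos (max k n0 + 1) ((le_max_right _ _).trans (Nat.le_succ _))
    rw [h, mul_zero] at this
    exact lt_irrefl _ this
  obtain ⟨hkm, hm0⟩ := Nat.find_spec hex
  have hmin : ∀ n, k ≤ n → n < Nat.find hex → tailF U c (n + 1) = 0 := by
    intro n hn hlt
    have := Nat.find_min hex hlt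
    by_contra hcon
    exact this ⟨hn, hcon⟩
  set m := Nat.find hex with hm
  obtain ⟨B, hB, hbd⟩ := tail_bdd hU c
  set ρ : ℝ := |tailF U c (m + 1)| with hρ
  have hρ0 : 0 < ρ := abs_pos.2 hm0
  obtain ⟨A1, hA1⟩ := pow_ratio_large (B * val [2] * ((m : ℝ) + 2) ^ (k + 2) / ρ) m
  refine ⟨max A1 (k + 2), fun a t ht hmem => ?_⟩
  by_contra hcon
  rw [not_lt, max_le_iff] at hcon
  obtain ⟨hne, hadm, hz⟩ := hmem
  have h0 := sum_hasSum c hadm
  rw [hz] at h0
  have hHk : 0 < H t k := H_pos t ht.le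
  have hsgn : (SignType.sign (tailF U c (m + 1)) : ℝ) * tailF U c (m + 1) = ρ := by
    rw [mul_comm]
    exact self_mul_sign _
  have hsab : |(SignType.sign (tailF U c (m + 1)) : ℝ)| = 1 := by
    rcases lt_or_gt_of_ne hm0 with h | h
    · rw [sign_neg h]; simp
    · rw [sign_pos h]; simp
  set ε : ℝ := (SignType.sign (tailF U c (m + 1)) : ℝ) with hε
  obtain ⟨d, hd⟩ : ∃ d, a = d + (k + 2) := ⟨a - (k + 2), by omega⟩
  have hdom := dominate h0 m (ε := ε) (X := H t k * ((((m + 1 : ℕ) : ℝ) ^ a)⁻¹ * ρ))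
    (Y := H t k * (B * (((m : ℝ) + 2) ^ d)⁻¹)) (by positivity) ?_ ?_
  · have h1 := hA1 a hcon.1
    have h2 : (((m + 1 : ℕ) : ℝ) ^ a)⁻¹ * ρ ≤ B * (((m : ℝ) + 2) ^ d)⁻¹ * val [2] := by
      have h3 : H t k * ((((m + 1 : ℕ) : ℝ) ^ a)⁻¹ * ρ) ≤
          H t k * (B * (((m : ℝ) + 2) ^ d)⁻¹ * val [2]) := by
        refine hdom.trans (le_of_eq (by ring))
      exact le_of_mul_le_mul_left h3 hHk
    push_cast at h2
    have h4 : ((m : ℝ) + 2) ^ a = ((m : ℝ) + 2) ^ d * ((m : ℝ) + 2) ^ (k + 2) := by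
      rw [← pow_add, ← hd]
    rw [div_mul_eq_mul_div, div_lt_iff₀ hρ0, h4] at h1
    have h5 : ρ ≤ B * (((m : ℝ) + 2) ^ d)⁻¹ * val [2] * ((m : ℝ) + 1) ^ a := by
      rw [inv_mul_le_iff₀ (by positivity)] at h2
      linarith
    have h6 : ρ * ((m : ℝ) + 2) ^ d ≤ B * val [2] * ((m : ℝ) + 1) ^ a := by
      have h7 := mul_le_mul_of_nonneg_right h5 (by positivity : 0 ≤ ((m : ℝ) + 2) ^ d)
      refine h7.trans (le_of_eq ?_)
      have : ((m : ℝ) + 2) ^ d ≠ 0 := by positivity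
      field_simp
    have h8 := mul_le_mul_of_nonneg_right h6 (by positivity : 0 ≤ ((m : ℝ) + 2) ^ (k + 2))
    have h9 : B * val [2] * ((m : ℝ) + 2) ^ (k + 2) * ((m : ℝ) + 1) ^ a =
        B * val [2] * ((m : ℝ) + 1) ^ a * ((m : ℝ) + 2) ^ (k + 2) := by ring
    have h10 : ((m : ℝ) + 2) ^ d * ((m : ℝ) + 2) ^ (k + 2) * ρ =
        ρ * ((m : ℝ) + 2) ^ d * ((m : ℝ) + 2) ^ (k + 2) := by ring
    rw [h9, h10] at h1
    linarith
  · have h1 : H t k ≤ H t m := H_mono t hkm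
    have h2 : ε * (H t m * (((m + 1 : ℕ) : ℝ) ^ a)⁻¹ * tailF U c (m + 1)) =
        H t m * ((((m + 1 : ℕ) : ℝ) ^ a)⁻¹ * ρ) := by
      rw [← hsgn]; ring
    rw [h2]
    exact mul_le_mul_of_nonneg_right h1 (by positivity)
  · intro n hn
    by_cases hnk : n < k
    · rw [H_small t n (by rw [ht]; exact hnk)]
      have : 0 ≤ H t k * (B * (((m : ℝ) + 2) ^ d)⁻¹) * (((n + 1 : ℕ) : ℝ) ^ 2)⁻¹ := by positivity
      simp only [zero_mul, mul_zero]
      linarith
    by_cases hnm : n < m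
    · rw [hmin n (not_lt.1 hnk) hnm]
      have : 0 ≤ H t k * (B * (((m : ℝ) + 2) ^ d)⁻¹) * (((n + 1 : ℕ) : ℝ) ^ 2)⁻¹ := by positivity
      simp only [mul_zero]
      linarith
    have hmn : m + 1 ≤ n := by omega
    refine neg_le_of_abs_le ?_
    rw [abs_mul, hsab, one_mul, abs_mul, abs_of_nonneg (mul_nonneg (H_nonneg _ _) (by positivity))]
    have h1 : H t n ≤ (n : ℝ) ^ k * H t k := by
      have := H_growth t n
      rw [ht] at this
      exact this
    have h2 : (n : ℝ) ^ k * (((n + 1 : ℕ) : ℝ) ^ a)⁻¹ ≤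
        (((m : ℝ) + 2) ^ d)⁻¹ * (((n + 1 : ℕ) : ℝ) ^ 2)⁻¹ := by
      have h3 : ((m : ℝ) + 2) ^ d ≤ ((n + 1 : ℕ) : ℝ) ^ d := by
        apply pow_le_pow_left₀ (by positivity)
        have : ((m + 1 : ℕ) : ℝ) ≤ n := by exact_mod_cast hmn
        push_cast at this ⊢
        linarith
      have h4 : (n : ℝ) ^ k ≤ ((n + 1 : ℕ) : ℝ) ^ k := by
        apply pow_le_pow_left₀ (by positivity)
        push_cast
        linarith
      have h5 : (((n + 1 : ℕ) : ℝ) ^ a)⁻¹ = (((n + 1 : ℕ) : ℝ) ^ d)⁻¹ *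
          ((((n + 1 : ℕ) : ℝ) ^ k)⁻¹ * (((n + 1 : ℕ) : ℝ) ^ 2)⁻¹) := by
        rw [hd, pow_add, pow_add, mul_inv, mul_inv]
      rw [h5]
      have h6 : (n : ℝ) ^ k * (((n + 1 : ℕ) : ℝ) ^ k)⁻¹ ≤ 1 := by
        rw [← div_eq_mul_inv, div_le_one (by positivity)]
        exact h4
      calc (n : ℝ) ^ k * ((((n + 1 : ℕ) : ℝ) ^ d)⁻¹ * ((((n + 1 : ℕ) : ℝ) ^ k)⁻¹ *
            (((n + 1 : ℕ) : ℝ) ^ 2)⁻¹)) = ((n : ℝ) ^ k * (((n + 1 : ℕ) : ℝ) ^ k)⁻¹) *
            ((((n + 1 : ℕ) : ℝ) ^ d)⁻¹ * (((n + 1 : ℕ) : ℝ) ^ 2)⁻¹) := by ring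
        _ ≤ 1 * ((((m : ℝ) + 2) ^ d)⁻¹ * (((n + 1 : ℕ) : ℝ) ^ 2)⁻¹) := by
            refine mul_le_mul h6 ?_ (by positivity) zero_le_one
            exact mul_le_mul_of_nonneg_right (inv_anti₀ (by positivity) h3) (by positivity)
        _ = _ := one_mul _
    calc H t n * (((n + 1 : ℕ) : ℝ) ^ a)⁻¹ * |tailF U c (n + 1)| ≤
        ((n : ℝ) ^ k * H t k) * (((n + 1 : ℕ) : ℝ) ^ a)⁻¹ * B :=
          mul_le_mul (mul_le_mul_of_nonneg_right h1 (by positivity)) (hbd _) (abs_nonneg _)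
            (by positivity)
      _ = H t k * B * ((n : ℝ) ^ k * (((n + 1 : ℕ) : ℝ) ^ a)⁻¹) := by ring
      _ ≤ H t k * B * ((((m : ℝ) + 2) ^ d)⁻¹ * (((n + 1 : ℕ) : ℝ) ^ 2)⁻¹) :=
          mul_le_mul_of_nonneg_left h2 (by positivity)
      _ = _ := by ring

lemma zb_not_adm {U : Finset (List ℕ)} {c : List ℕ → ℝ} (h : ¬ ∀ u ∈ U, Adm u) : Zb U c = ∅ := by
  rw [Set.eq_empty_iff_forall_notMem]
  intro s hs
  exact h fun u hu => adm_append_left (hs.2.1 u hu)

theorem fin_len (L : ℕ) : ∀ (U : Finset (List ℕ)) (c : List ℕ → ℝ), (∃ u ∈ U, c u ≠ 0) →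
    {s | s ∈ Zb U c ∧ s.length ≤ L}.Finite := by
  classical
  induction L with
  | zero =>
    intro U c _
    refine Set.Finite.subset (Set.finite_empty) fun s hs => ?_
    exact absurd (List.length_eq_zero_iff.1 (Nat.le_zero.1 hs.2)) hs.1.1
  | succ L ih =>
    intro U c hc
    by_cases hU : ∀ u ∈ U, Adm u
    swap
    · rw [zb_not_adm hU]
      simp
    choose A hA using fun k => letter_ne hU hc k
    set M := (Finset.range (L + 1)).sup A with hM
    have hsub : {s | s ∈ Zb U c ∧ s.length ≤ L + 1} ⊆ ⋃ a ∈ Finset.range M,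
        ({[a]} ∪ (fun t => a :: t) '' {t | t ∈ Zb (U.image fun u => u ++ [a])
          (fun w => c w.dropLast) ∧ t.length ≤ L}) := by
      rintro s ⟨hs, hlen⟩
      obtain ⟨a, t, rfl⟩ := List.exists_cons_of_ne_nil hs.1
      rw [List.length_cons] at hlen
      have ha : a < M := (hA t.length a t rfl hs).trans_le
        (Finset.le_sup (f := A) (Finset.mem_range.2 (by omega)))
      refine Set.mem_biUnion (by exact_mod_cast Finset.mem_range.2 ha) ?_
      by_cases ht : t = []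
      · left
        rw [ht]
        rfl
      · right
        refine ⟨t, ⟨⟨ht, ?_, ?_⟩, by omega⟩, rfl⟩
        · intro w hw
          obtain ⟨u, hu, rfl⟩ := Finset.mem_image.1 hw
          have := hs.2.1 u hu
          simpa using this
        · rw [Finset.sum_image]
          · have := hs.2.2
            rw [← this]
            refine Finset.sum_congr rfl fun u _ => ?_
            show c (u ++ [a]).dropLast * val (u ++ [a] ++ t) = _
            rw [List.dropLast_concat]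
            simp
          · intro u _ v _ huv
            exact List.append_cancel_right huv
    refine Set.Finite.subset ?_ hsub
    refine Set.Finite.biUnion (Finset.finite_toSet _) fun a _ => ?_
    refine (Set.finite_singleton _).union (Set.Finite.image _ (ih _ _ ?_))
    obtain ⟨u, hu, h⟩ := hc
    refine ⟨u ++ [a], Finset.mem_image_of_mem _ hu, ?_⟩
    show c (u ++ [a]).dropLast ≠ 0
    rw [List.dropLast_concat]
    exact h

/-- **finitely many common last parts** -/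
theorem suffix_finite (U : Finset (List ℕ)) (c : List ℕ → ℝ) (hc : ∃ u ∈ U, c u ≠ 0) :
    (Zb U c).Finite := by
  by_cases hU : ∀ u ∈ U, Adm u
  swap
  · rw [zb_not_adm hU]
    simp
  obtain ⟨n0, hn0⟩ := long_ne hU hc
  exact (fin_len n0 U c hc).subset fun s hs => ⟨hs, hn0 s hs⟩

end Run7.h53.FW
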