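import Mathlib
import Pool.Agent.Run7.h53.FW.Suf

/-!
# A combination with real coefficients vanishes for finitely many common first parts (helper53)
-/

set_option autoImplicit false

namespace Run7.h53.FW

open Filter Topology Finset
open Pool.Agent.H447R2.MZ (H H_nil H_cons H_cons_zero H_cons_succ H_nonneg Adm val tendsto_H H_le_val H_mono)
open Pool.Agent.Q217.TT (ep ep_pos)
open Run7.h53.VD (T T_nil T_step T_tendsto T_zero T_nonneg adm_append_left headF H_hr head_noWA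
  bound_explicit NoWA)
open Run7.h53.SX (H_small H_pos hasSum_split ep_le_T)

lemma adm_of_two {q : List ℕ} (hq : ∀ x ∈ q, 2 ≤ x) : Adm q :=
  ⟨fun x hx => by have := hq x hx; omega, fun a t h => hq a (by rw [h]; simp)⟩

lemma adm_pre {q u : List ℕ} {b : ℕ} (hq : ∀ x ∈ q, 2 ≤ x) (hb : 2 ≤ b) (hu : ∀ x ∈ u, 1 ≤ x) :
    Adm (q ++ b :: u) := by
  refine ⟨fun x hx => ?_, fun a t h => ?_⟩
  · rcases List.mem_append.1 hx with h | h
    · have := hq x h
      omega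
    · rcases List.mem_cons.1 h with rfl | h
      · omega
      · exact hu x h
  · cases q with
    | nil =>
      rw [List.nil_append] at h
      have := (List.cons.inj h).1
      omega
    | cons y q =>
      rw [List.cons_append] at h
      have h1 := (List.cons.inj h).1
      have := hq y (by simp)
      omega

lemma T_pos {q : List ℕ} (hq : Adm q) (M : ℕ) : 0 < T q M := by
  have h1 := ep_pos q M
  exact h1.trans_le (ep_le_T hq M _)

/-- **the tails decrease fast at the beginning when the word is long** -/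
theorem T_ratio (q : List ℕ) (hq : ∀ x ∈ q, 2 ≤ x) (x : ℕ) :
    ((x : ℝ) + 1 + q.length) * T q (x + 1) ≤ ((x : ℝ) + 1) * T q x := by
  induction q using List.reverseRecOn generalizing x with
  | nil => rw [T_nil, T_nil]; simp
  | append_singleton q b ih =>
    have hq' : ∀ y ∈ q, 2 ≤ y := fun y hy => hq y (List.mem_append_left _ hy)
    have hb : 2 ≤ b := hq b (by simp)
    have hadm : Adm (q ++ [b]) := adm_of_two hq
    have hadm' : Adm q := adm_of_two hq'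
    obtain ⟨e, rfl⟩ : ∃ e, b = e + 2 := ⟨b - 2, by omega⟩
    set ℓ : ℕ := q.length with hℓ
    -- the main inequality
    have key : ∀ y : ℕ, 1 ≤ y → ((ℓ : ℝ) + 1) * T (q ++ [e + 2]) y ≤ ((y : ℝ) ^ (e + 1))⁻¹ * T q y := by
      set D : ℕ → ℝ := fun y => ((y : ℝ) ^ (e + 1))⁻¹ * T q y - ((ℓ : ℝ) + 1) * T (q ++ [e + 2]) y with hD
      have hlim : Tendsto D atTop (𝓝 0) := by
        have h1 : Tendsto (fun m : ℕ => ((m : ℝ) ^ (e + 1))⁻¹) atTop (𝓝 0) :=
          ((tendsto_pow_atTop (Nat.succ_ne_zero e)).comp tendsto_natCast_atTop_atTop).inv_tendsto_atTop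
        have h2 : Tendsto (fun m : ℕ => ((m : ℝ) ^ (e + 1))⁻¹ * T q m) atTop (𝓝 0) := by
          have h3 := h1.mul_const (val q)
          rw [zero_mul] at h3
          refine squeeze_zero (fun m => mul_nonneg (by positivity) (T_nonneg hadm' m))
            (fun m => ?_) h3
          exact mul_le_mul_of_nonneg_left (T_le_val hadm' m) (by positivity)
        have h3 := (T_tendsto hadm (by simp)).const_mul ((ℓ : ℝ) + 1)
        have h4 := h2.sub h3
        rw [mul_zero, sub_zero] at h4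
        exact h4
      have hstep : ∀ y : ℕ, 1 ≤ y → D (y + 1) ≤ D y := by
        intro y hy
        have hy0 : (0 : ℝ) < y := by exact_mod_cast hy
        have h1 := T_step hadm y
        have h2 := ih hq' y
        have hT : 0 ≤ T q (y + 1) := T_nonneg hadm' _
        have e1 : D y - D (y + 1) = ((y : ℝ) ^ (e + 1))⁻¹ * T q y -
            ((((y + 1 : ℕ) : ℝ)) ^ (e + 1))⁻¹ * T q (y + 1) -
            ((ℓ : ℝ) + 1) * ((((y + 1 : ℕ) : ℝ) ^ (e + 2))⁻¹ * T q (y + 1)) := by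
          rw [hD]
          simp only
          rw [h1]
          ring
        -- lower bound of the first term
        have h3 : ((y : ℝ) ^ (e + 1))⁻¹ * T q y ≥
            ((y : ℝ) * ((((y + 1 : ℕ) : ℝ)) ^ (e + 1)))⁻¹ * (((y : ℝ) + 1 + ℓ) * T q (y + 1)) := by
          have h4 : ((y : ℝ) ^ (e + 1))⁻¹ * T q y =
              ((y : ℝ) ^ (e + 1) * ((y : ℝ) + 1))⁻¹ * (((y : ℝ) + 1) * T q y) := by
            have : ((y : ℝ) + 1) ≠ 0 := by positivity
            field_simp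
          rw [h4, ge_iff_le]
          refine mul_le_mul ?_ h2 (by positivity) (by positivity)
          apply inv_anti₀ (by positivity)
          have h5 : (y : ℝ) ^ e ≤ (((y + 1 : ℕ) : ℝ)) ^ e := by
            apply pow_le_pow_left₀ hy0.le
            push_cast
            linarith
          calc (y : ℝ) ^ (e + 1) * ((y : ℝ) + 1) = (y : ℝ) ^ e * (y * ((y : ℝ) + 1)) := by ring
            _ ≤ (((y + 1 : ℕ) : ℝ)) ^ e * (y * ((y : ℝ) + 1)) :=
                mul_le_mul_of_nonneg_right h5 (by positivity)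
            _ = _ := by push_cast; ring
        have h6 : ((((y + 1 : ℕ) : ℝ)) ^ (e + 1))⁻¹ * T q (y + 1) +
            ((ℓ : ℝ) + 1) * ((((y + 1 : ℕ) : ℝ) ^ (e + 2))⁻¹ * T q (y + 1)) ≤
            ((y : ℝ) * ((((y + 1 : ℕ) : ℝ)) ^ (e + 1)))⁻¹ * (((y : ℝ) + 1 + ℓ) * T q (y + 1)) := by
          have hz : (0 : ℝ) < ((y + 1 : ℕ) : ℝ) := by positivity
          have e2 : ((((y + 1 : ℕ) : ℝ)) ^ (e + 1))⁻¹ * T q (y + 1) +
              ((ℓ : ℝ) + 1) * ((((y + 1 : ℕ) : ℝ) ^ (e + 2))⁻¹ * T q (y + 1)) =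
              ((((y + 1 : ℕ) : ℝ)) ^ (e + 1))⁻¹ * T q (y + 1) *
                (1 + ((ℓ : ℝ) + 1) / ((y + 1 : ℕ) : ℝ)) := by
            rw [pow_succ (((y + 1 : ℕ) : ℝ)) (e + 1)]
            field_simp
          have e3 : ((y : ℝ) * ((((y + 1 : ℕ) : ℝ)) ^ (e + 1)))⁻¹ * (((y : ℝ) + 1 + ℓ) * T q (y + 1)) =
              ((((y + 1 : ℕ) : ℝ)) ^ (e + 1))⁻¹ * T q (y + 1) * (((y : ℝ) + 1 + ℓ) / y) := by
            field_simp
          rw [e2, e3]
          refine mul_le_mul_of_nonneg_left ?_ (by positivity)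
          have e4 : ((y : ℝ) + 1 + ℓ) / y = 1 + ((ℓ : ℝ) + 1) / y := by
            field_simp
            ring
          rw [e4]
          have : ((ℓ : ℝ) + 1) / ((y + 1 : ℕ) : ℝ) ≤ ((ℓ : ℝ) + 1) / y := by
            apply div_le_div_of_nonneg_left (by positivity) hy0
            push_cast
            linarith
          linarith
        have h7 : 0 ≤ D y - D (y + 1) := by
          rw [e1]
          linarith
        linarith
      intro y hy
      have hanti : ∀ z, y ≤ z → D z ≤ D y := by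
        intro z hz
        induction z, hz using Nat.le_induction with
        | base => exact le_rfl
        | succ z hz ihz => exact (hstep z (by omega)).trans ihz
      have h1 : 0 ≤ D y := le_of_tendsto hlim ((eventually_ge_atTop y).mono hanti)
      rw [hD] at h1
      simp only at h1
      linarith
    have h1 := key (x + 1) (by omega)
    have h2 := T_step hadm x
    rw [List.length_append, List.length_singleton, ← hℓ]
    rw [h2]
    have h3 : ((x : ℝ) + 1) * ((((x + 1 : ℕ) : ℝ) ^ (e + 2))⁻¹ * T q (x + 1)) =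
        (((x + 1 : ℕ) : ℝ) ^ (e + 1))⁻¹ * T q (x + 1) := by
      rw [pow_succ (((x + 1 : ℕ) : ℝ)) (e + 1)]
      push_cast
      field_simp
    rw [mul_add, h3]
    push_cast at h1 ⊢
    nlinarith

lemma T_anti {q : List ℕ} (hq : ∀ x ∈ q, 2 ≤ x) {m n : ℕ} (h : m ≤ n) : T q n ≤ T q m := by
  induction n, h using Nat.le_induction with
  | base => exact le_rfl
  | succ n _ ih =>
    refine le_trans ?_ ih
    have h1 := T_ratio q hq n
    have h2 := T_nonneg (adm_of_two hq) (n + 1)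
    have h3 : ((n : ℝ) + 1) * T q (n + 1) ≤ ((n : ℝ) + 1) * T q n := by
      have : 0 ≤ (q.length : ℝ) * T q (n + 1) := by positivity
      nlinarith
    exact le_of_mul_le_mul_left h3 (by positivity)

/-- the combination of the truncated sums -/
noncomputable def hF (U : Finset (List ℕ)) (c : List ℕ → ℝ) (n : ℕ) : ℝ := ∑ u ∈ U, c u * H u n

lemma hF_ne {U : Finset (List ℕ)} (hU : ∀ u ∈ U, ∀ x ∈ u, 1 ≤ x) {c : List ℕ → ℝ}
    (hc : ∃ u ∈ U, c u ≠ 0) : ∃ m, hF U c m ≠ 0 := by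
  classical
  set r := U.sup List.length with hr
  set J := U.sup (fun u => u.sum) with hJ
  have h1 : NoWA (headF U c) ((J + 2) ^ r) := head_noWA (bound_explicit J r U.card)
    (fun u hu => ⟨Finset.le_sup (f := List.length) hu, fun x hx => ⟨hU u hu x hx,
      (List.single_le_sum (fun _ _ => Nat.zero_le _) x hx).trans
        (Finset.le_sup (f := fun u : List ℕ => u.sum) hu)⟩⟩) le_rfl hc
  obtain ⟨k, hk, h2⟩ := h1.nz 1
  refine ⟨k - 1, ?_⟩
  unfold hF
  unfold headF at h2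
  convert h2 using 3 with u hu
  rw [H_hr, Nat.sub_add_cancel hk]

lemma hF_bdd (U : Finset (List ℕ)) (c : List ℕ → ℝ) :
    ∃ (B : ℝ) (r : ℕ), 0 < B ∧ ∀ n : ℕ, |hF U c n| ≤ B * ((n : ℝ) + 1) ^ r := by
  classical
  refine ⟨∑ u ∈ U, |c u| * H u u.length + 1, U.sup List.length, ?_, fun n => ?_⟩
  · have := Finset.sum_nonneg fun u (_ : u ∈ U) => mul_nonneg (abs_nonneg (c u)) (H_nonneg u u.length)
    linarith
  · have h1 : |hF U c n| ≤ (∑ u ∈ U, |c u| * H u u.length) * ((n : ℝ) + 1) ^ (U.sup List.length) := by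
      unfold hF
      rw [Finset.sum_mul]
      refine (Finset.abs_sum_le_sum_abs _ _).trans (Finset.sum_le_sum fun u hu => ?_)
      rw [abs_mul, abs_of_nonneg (H_nonneg u n), mul_assoc]
      refine mul_le_mul_of_nonneg_left ?_ (abs_nonneg _)
      have h2 := H_growth u n
      have h3 : (n : ℝ) ^ u.length ≤ ((n : ℝ) + 1) ^ (U.sup List.length) := by
        calc (n : ℝ) ^ u.length ≤ ((n : ℝ) + 1) ^ u.length :=
              pow_le_pow_left₀ (by positivity) (by linarith) _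
          _ ≤ _ := pow_le_pow_right₀ (by linarith [Nat.cast_nonneg (α := ℝ) n])
              (Finset.le_sup (f := List.length) hu)
      calc H u n ≤ (n : ℝ) ^ u.length * H u u.length := h2
        _ ≤ ((n : ℝ) + 1) ^ (U.sup List.length) * H u u.length :=
            mul_le_mul_of_nonneg_right h3 (H_nonneg _ _)
        _ = _ := by ring
    have : 0 ≤ ((n : ℝ) + 1) ^ (U.sup List.length) := by positivity
    nlinarith

lemma pre_hasSum {U : Finset (List ℕ)} (hU : ∀ u ∈ U, ∀ x ∈ u, 1 ≤ x) (c : List ℕ → ℝ) {b : ℕ}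
    {q : List ℕ} (hq : ∀ x ∈ q, 2 ≤ x) (hb : 2 ≤ b) :
    HasSum (fun n => hF U c n * (((n + 1 : ℕ) : ℝ) ^ b)⁻¹ * T q (n + 1))
      (∑ u ∈ U, c u * val (q ++ b :: u)) := by
  have h1 := hasSum_sum (s := U) fun u hu => (hasSum_split (adm_pre hq hb (hU u hu))).mul_left (c u)
  refine h1.congr_fun ?_ |> id
  intro n
  unfold hF
  rw [Finset.sum_mul, Finset.sum_mul]
  exact Finset.sum_congr rfl fun u _ => by ring

/-- the words with letters at least `2` which give a zero -/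
def Zp (U : Finset (List ℕ)) (c : List ℕ → ℝ) : Set (List ℕ) :=
  {p | p ≠ [] ∧ (∀ x ∈ p, 2 ≤ x) ∧ ∑ u ∈ U, c u * val (p ++ u) = 0}

lemma mem_zp {U : Finset (List ℕ)} {c : List ℕ → ℝ} {q : List ℕ} {b : ℕ} (h : (q ++ [b]) ∈ Zp U c) :
    (∀ x ∈ q, 2 ≤ x) ∧ 2 ≤ b ∧ ∑ u ∈ U, c u * val (q ++ b :: u) = 0 := by
  obtain ⟨_, h1, h2⟩ := h
  refine ⟨fun x hx => h1 x (List.mem_append_left _ hx), h1 b (by simp), ?_⟩
  rw [← h2]
  refine Finset.sum_congr rfl fun u _ => ?_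
  rw [List.append_assoc, List.singleton_append]

theorem last_lt {U : Finset (List ℕ)} (hU : ∀ u ∈ U, ∀ x ∈ u, 1 ≤ x) {c : List ℕ → ℝ}
    (hc : ∃ u ∈ U, c u ≠ 0) : ∃ A : ℕ, ∀ (q : List ℕ) (b : ℕ), (q ++ [b]) ∈ Zp U c → b < A := by
  have hex := hF_ne hU hc
  have hm0 := Nat.find_spec hex
  have hmin : ∀ n, n < Nat.find hex → hF U c n = 0 := by
    intro n hlt
    have := Nat.find_min hex hlt
    push Not at this
    exact this
  set m := Nat.find hex with hm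
  obtain ⟨B, r, hB, hbd⟩ := hF_bdd U c
  set ρ : ℝ := |hF U c m| with hρ
  have hρ0 : 0 < ρ := abs_pos.2 hm0
  obtain ⟨A1, hA1⟩ := pow_ratio_large (B * val [2] * ((m : ℝ) + 2) ^ (r + 2) / ρ) m
  refine ⟨max A1 (r + 2), fun q b hmem => ?_⟩
  by_contra hcon
  rw [not_lt, max_le_iff] at hcon
  obtain ⟨hq, hb2, hz⟩ := mem_zp hmem
  have h0 := pre_hasSum hU c hq hb2
  rw [hz] at h0
  have hTm : 0 < T q (m + 1) := T_pos (adm_of_two hq) _
  have hsgn : (SignType.sign (hF U c m) : ℝ) * hF U c m = ρ := by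
    rw [mul_comm]
    exact self_mul_sign _
  have hsab : |(SignType.sign (hF U c m) : ℝ)| = 1 := by
    rcases lt_or_gt_of_ne hm0 with h | h
    · rw [sign_neg h]; simp
    · rw [sign_pos h]; simp
  set ε : ℝ := (SignType.sign (hF U c m) : ℝ) with hε
  obtain ⟨d, hd⟩ : ∃ d, b = d + (r + 2) := ⟨b - (r + 2), by omega⟩
  have hdom := dominate h0 m (ε := ε) (X := T q (m + 1) * ((((m + 1 : ℕ) : ℝ) ^ b)⁻¹ * ρ))
    (Y := T q (m + 1) * (B * (((m : ℝ) + 2) ^ d)⁻¹)) (by positivity) ?_ ?_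
  · have h1 := hA1 b hcon.1
    have h2 : (((m + 1 : ℕ) : ℝ) ^ b)⁻¹ * ρ ≤ B * (((m : ℝ) + 2) ^ d)⁻¹ * val [2] := by
      have h3 : T q (m + 1) * ((((m + 1 : ℕ) : ℝ) ^ b)⁻¹ * ρ) ≤
          T q (m + 1) * (B * (((m : ℝ) + 2) ^ d)⁻¹ * val [2]) := by
        refine hdom.trans (le_of_eq (by ring))
      exact le_of_mul_le_mul_left h3 hTm
    push_cast at h2
    have h4 : ((m : ℝ) + 2) ^ b = ((m : ℝ) + 2) ^ d * ((m : ℝ) + 2) ^ (r + 2) := by
      rw [← pow_add, ← hd]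
    rw [div_mul_eq_mul_div, div_lt_iff₀ hρ0, h4] at h1
    have h5 : ρ ≤ B * (((m : ℝ) + 2) ^ d)⁻¹ * val [2] * ((m : ℝ) + 1) ^ b := by
      rw [inv_mul_le_iff₀ (by positivity)] at h2
      linarith
    have h6 : ρ * ((m : ℝ) + 2) ^ d ≤ B * val [2] * ((m : ℝ) + 1) ^ b := by
      have h7 := mul_le_mul_of_nonneg_right h5 (by positivity : 0 ≤ ((m : ℝ) + 2) ^ d)
      refine h7.trans (le_of_eq ?_)
      have : ((m : ℝ) + 2) ^ d ≠ 0 := by positivity
      field_simp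
    have h8 := mul_le_mul_of_nonneg_right h6 (by positivity : 0 ≤ ((m : ℝ) + 2) ^ (r + 2))
    have h9 : B * val [2] * ((m : ℝ) + 2) ^ (r + 2) * ((m : ℝ) + 1) ^ b =
        B * val [2] * ((m : ℝ) + 1) ^ b * ((m : ℝ) + 2) ^ (r + 2) := by ring
    have h10 : ((m : ℝ) + 2) ^ d * ((m : ℝ) + 2) ^ (r + 2) * ρ =
        ρ * ((m : ℝ) + 2) ^ d * ((m : ℝ) + 2) ^ (r + 2) := by ring
    rw [h9, h10] at h1
    linarith
  · refine le_of_eq ?_
    rw [← hsgn]
    ring
  · intro n hn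
    by_cases hnm : n < m
    · rw [hmin n hnm]
      have : 0 ≤ T q (m + 1) * (B * (((m : ℝ) + 2) ^ d)⁻¹) * (((n + 1 : ℕ) : ℝ) ^ 2)⁻¹ := by positivity
      simp only [zero_mul, mul_zero]
      linarith
    have hmn : m + 1 ≤ n := by omega
    refine neg_le_of_abs_le ?_
    have hTn : 0 ≤ T q (n + 1) := T_nonneg (adm_of_two hq) _
    rw [abs_mul, hsab, one_mul, abs_mul, abs_mul, abs_of_nonneg hTn,
      abs_of_nonneg (by positivity : (0 : ℝ) ≤ (((n + 1 : ℕ) : ℝ) ^ b)⁻¹)]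
    have h1 : T q (n + 1) ≤ T q (m + 1) := T_anti hq (by omega)
    have h2 : ((n : ℝ) + 1) ^ r * (((n + 1 : ℕ) : ℝ) ^ b)⁻¹ ≤
        (((m : ℝ) + 2) ^ d)⁻¹ * (((n + 1 : ℕ) : ℝ) ^ 2)⁻¹ := by
      have h3 : ((m : ℝ) + 2) ^ d ≤ ((n + 1 : ℕ) : ℝ) ^ d := by
        apply pow_le_pow_left₀ (by positivity)
        have : ((m + 1 : ℕ) : ℝ) ≤ n := by exact_mod_cast hmn
        push_cast at this ⊢
        linarith
      have h5 : (((n + 1 : ℕ) : ℝ) ^ b)⁻¹ = (((n + 1 : ℕ) : ℝ) ^ d)⁻¹ *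
          ((((n + 1 : ℕ) : ℝ) ^ r)⁻¹ * (((n + 1 : ℕ) : ℝ) ^ 2)⁻¹) := by
        rw [hd, pow_add, pow_add, mul_inv, mul_inv]
      have h6 : ((n : ℝ) + 1) ^ r * (((n + 1 : ℕ) : ℝ) ^ r)⁻¹ = 1 := by
        push_cast
        exact mul_inv_cancel₀ (by positivity)
      rw [h5]
      calc ((n : ℝ) + 1) ^ r * ((((n + 1 : ℕ) : ℝ) ^ d)⁻¹ * ((((n + 1 : ℕ) : ℝ) ^ r)⁻¹ *
            (((n + 1 : ℕ) : ℝ) ^ 2)⁻¹)) = (((n : ℝ) + 1) ^ r * (((n + 1 : ℕ) : ℝ) ^ r)⁻¹) *
            ((((n + 1 : ℕ) : ℝ) ^ d)⁻¹ * (((n + 1 : ℕ) : ℝ) ^ 2)⁻¹) := by ring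
        _ = (((n + 1 : ℕ) : ℝ) ^ d)⁻¹ * (((n + 1 : ℕ) : ℝ) ^ 2)⁻¹ := by rw [h6, one_mul]
        _ ≤ _ := mul_le_mul_of_nonneg_right (inv_anti₀ (by positivity) h3) (by positivity)
    calc |hF U c n| * (((n + 1 : ℕ) : ℝ) ^ b)⁻¹ * T q (n + 1) ≤
        (B * ((n : ℝ) + 1) ^ r) * (((n + 1 : ℕ) : ℝ) ^ b)⁻¹ * T q (m + 1) :=
          mul_le_mul (mul_le_mul_of_nonneg_right (hbd n) (by positivity)) h1 hTn (by positivity)
      _ = T q (m + 1) * B * (((n : ℝ) + 1) ^ r * (((n + 1 : ℕ) : ℝ) ^ b)⁻¹) := by ring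
      _ ≤ T q (m + 1) * B * ((((m : ℝ) + 2) ^ d)⁻¹ * (((n + 1 : ℕ) : ℝ) ^ 2)⁻¹) :=
          mul_le_mul_of_nonneg_left h2 (by positivity)
      _ = _ := by ring

lemma pow_four (r n : ℕ) : ((n : ℝ) + 2) ^ (r + 1) ≤ ((n : ℝ) + 1) ^ r * ((n : ℝ) + 2 + 4 ^ (r + 1)) := by
  induction r with
  | zero => norm_num
  | succ r ih =>
    have h4 : (1 : ℝ) ≤ 4 ^ (r + 1) := one_le_pow₀ (by norm_num)
    have hn : (0 : ℝ) ≤ n := Nat.cast_nonneg n
    have h1 : ((n : ℝ) + 2) * ((n : ℝ) + 2 + 4 ^ (r + 1)) ≤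
        ((n : ℝ) + 1) * ((n : ℝ) + 2 + 4 ^ (r + 1 + 1)) := by
      rw [pow_succ (4 : ℝ) (r + 1)]
      nlinarith
    calc ((n : ℝ) + 2) ^ (r + 1 + 1) = ((n : ℝ) + 2) * ((n : ℝ) + 2) ^ (r + 1) := by ring
      _ ≤ ((n : ℝ) + 2) * (((n : ℝ) + 1) ^ r * ((n : ℝ) + 2 + 4 ^ (r + 1))) :=
          mul_le_mul_of_nonneg_left ih (by positivity)
      _ = ((n : ℝ) + 1) ^ r * (((n : ℝ) + 2) * ((n : ℝ) + 2 + 4 ^ (r + 1))) := by ring
      _ ≤ ((n : ℝ) + 1) ^ r * (((n : ℝ) + 1) * ((n : ℝ) + 2 + 4 ^ (r + 1 + 1))) :=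
          mul_le_mul_of_nonneg_left h1 (by positivity)
      _ = _ := by ring

theorem len_lt {U : Finset (List ℕ)} (hU : ∀ u ∈ U, ∀ x ∈ u, 1 ≤ x) {c : List ℕ → ℝ}
    (hc : ∃ u ∈ U, c u ≠ 0) : ∃ L : ℕ, ∀ (q : List ℕ) (b : ℕ), (q ++ [b]) ∈ Zp U c → q.length < L := by
  have hex := hF_ne hU hc
  have hm0 := Nat.find_spec hex
  have hmin : ∀ n, n < Nat.find hex → hF U c n = 0 := by
    intro n hlt
    have := Nat.find_min hex hlt
    push Not at this
    exact this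
  set m := Nat.find hex with hm
  obtain ⟨B, r, hB, hbd⟩ := hF_bdd U c
  set ρ : ℝ := |hF U c m| with hρ
  have hρ0 : 0 < ρ := abs_pos.2 hm0
  set C : ℝ := B * ((m : ℝ) + 2) ^ (r + 1) * ((m : ℝ) + 1) ^ 2 * val [2] / ρ with hC
  refine ⟨max (4 ^ (r + 1)) (⌈C⌉₊), fun q b hmem => ?_⟩
  by_contra hcon
  rw [not_lt, max_le_iff] at hcon
  obtain ⟨hq, hb2, hz⟩ := mem_zp hmem
  set ℓ := q.length with hℓ
  have hℓ4 : (4 : ℝ) ^ (r + 1) ≤ ℓ := by exact_mod_cast hcon.1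
  have hℓC : C ≤ ℓ := (Nat.le_ceil C).trans (by exact_mod_cast hcon.2)
  have h0 := pre_hasSum hU c hq hb2
  rw [hz] at h0
  have hTm : 0 < T q (m + 1) := T_pos (adm_of_two hq) _
  have hsgn : (SignType.sign (hF U c m) : ℝ) * hF U c m = ρ := by
    rw [mul_comm]
    exact self_mul_sign _
  have hsab : |(SignType.sign (hF U c m) : ℝ)| = 1 := by
    rcases lt_or_gt_of_ne hm0 with h | h
    · rw [sign_neg h]; simp
    · rw [sign_pos h]; simp
  set ε : ℝ := (SignType.sign (hF U c m) : ℝ) with hε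
  obtain ⟨d, hd⟩ : ∃ d, b = d + 2 := ⟨b - 2, by omega⟩
  set Q : ℝ := ((m : ℝ) + 2) ^ (r + 1) / ((m : ℝ) + 2 + ℓ) with hQ
  have hQ0 : 0 < Q := by positivity
  -- growth
  have hgr : ∀ n : ℕ, m + 1 ≤ n → ((n : ℝ) + 1) ^ r * T q (n + 1) ≤ Q * T q (m + 1) := by
    intro n hn
    induction n, hn using Nat.le_induction with
    | base =>
      have h1 := T_ratio q hq (m + 1)
      rw [← hℓ] at h1
      push_cast at h1 ⊢
      rw [hQ, div_mul_eq_mul_div, le_div_iff₀ (by positivity)]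
      have h2 : ((m : ℝ) + 1 + 1) ^ r * T q (m + 1 + 1) * ((m : ℝ) + 2 + ℓ) =
          ((m : ℝ) + 2) ^ r * (((m : ℝ) + 1 + 1 + ℓ) * T q (m + 1 + 1)) := by ring
      rw [h2]
      calc ((m : ℝ) + 2) ^ r * (((m : ℝ) + 1 + 1 + ℓ) * T q (m + 1 + 1)) ≤
          ((m : ℝ) + 2) ^ r * (((m : ℝ) + 1 + 1) * T q (m + 1)) :=
            mul_le_mul_of_nonneg_left h1 (by positivity)
        _ = _ := by ring
    | succ n hn ih =>
      refine le_trans ?_ ih
      have h1 := T_ratio q hq (n + 1)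
      rw [← hℓ] at h1
      push_cast at h1 ⊢
      have h2 := pow_four r n
      have hT2 : 0 ≤ T q (n + 1 + 1) := T_nonneg (adm_of_two hq) _
      have hT1 : 0 ≤ T q (n + 1) := T_nonneg (adm_of_two hq) _
      -- multiply by `n + 2 + ℓ`
      have h3 : (((n : ℝ) + 1 + 1) ^ r * T q (n + 1 + 1)) * ((n : ℝ) + 2 + ℓ) ≤
          (((n : ℝ) + 1) ^ r * T q (n + 1)) * ((n : ℝ) + 2 + ℓ) := by
        calc (((n : ℝ) + 1 + 1) ^ r * T q (n + 1 + 1)) * ((n : ℝ) + 2 + ℓ) =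
            ((n : ℝ) + 2) ^ r * (((n : ℝ) + 1 + 1 + ℓ) * T q (n + 1 + 1)) := by ring
          _ ≤ ((n : ℝ) + 2) ^ r * (((n : ℝ) + 1 + 1) * T q (n + 1)) :=
              mul_le_mul_of_nonneg_left h1 (by positivity)
          _ = ((n : ℝ) + 2) ^ (r + 1) * T q (n + 1) := by ring
          _ ≤ (((n : ℝ) + 1) ^ r * ((n : ℝ) + 2 + 4 ^ (r + 1))) * T q (n + 1) :=
              mul_le_mul_of_nonneg_right h2 hT1
          _ ≤ (((n : ℝ) + 1) ^ r * ((n : ℝ) + 2 + ℓ)) * T q (n + 1) := by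
              refine mul_le_mul_of_nonneg_right ?_ hT1
              exact mul_le_mul_of_nonneg_left (by linarith) (by positivity)
          _ = _ := by ring
      exact le_of_mul_le_mul_right h3 (by positivity)
  have hdom := dominate h0 m (ε := ε) (X := T q (m + 1) * ((((m + 1 : ℕ) : ℝ) ^ b)⁻¹ * ρ))
    (Y := T q (m + 1) * (B * Q * (((m : ℝ) + 1) ^ d)⁻¹)) (by positivity) ?_ ?_
  · have h2 : (((m + 1 : ℕ) : ℝ) ^ b)⁻¹ * ρ ≤ B * Q * (((m : ℝ) + 1) ^ d)⁻¹ * val [2] := by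
      have h3 : T q (m + 1) * ((((m + 1 : ℕ) : ℝ) ^ b)⁻¹ * ρ) ≤
          T q (m + 1) * (B * Q * (((m : ℝ) + 1) ^ d)⁻¹ * val [2]) := by
        refine hdom.trans (le_of_eq (by ring))
      exact le_of_mul_le_mul_left h3 hTm
    push_cast at h2
    rw [inv_mul_le_iff₀ (by positivity), hd, pow_add] at h2
    have h3 : ((m : ℝ) + 1) ^ d * ((m : ℝ) + 1) ^ 2 * (B * Q * (((m : ℝ) + 1) ^ d)⁻¹ * val [2]) =
        ((m : ℝ) + 1) ^ 2 * (B * Q * val [2]) := by
      have : ((m : ℝ) + 1) ^ d ≠ 0 := by positivity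
      field_simp
    rw [h3] at h2
    have h4 : ρ * ((m : ℝ) + 2 + ℓ) ≤ B * ((m : ℝ) + 2) ^ (r + 1) * ((m : ℝ) + 1) ^ 2 * val [2] := by
      have h5 := mul_le_mul_of_nonneg_right h2 (by positivity : 0 ≤ (m : ℝ) + 2 + ℓ)
      refine h5.trans (le_of_eq ?_)
      rw [hQ]
      field_simp
    rw [hC, div_le_iff₀ hρ0] at hℓC
    have h6 : 0 < ρ * ((m : ℝ) + 2) := by positivity
    nlinarith
  · refine le_of_eq ?_
    rw [← hsgn]
    ring
  · intro n hn
    by_cases hnm : n < m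
    · rw [hmin n hnm]
      have : 0 ≤ T q (m + 1) * (B * Q * (((m : ℝ) + 1) ^ d)⁻¹) * (((n + 1 : ℕ) : ℝ) ^ 2)⁻¹ := by
        positivity
      simp only [zero_mul, mul_zero]
      linarith
    have hmn : m + 1 ≤ n := by omega
    refine neg_le_of_abs_le ?_
    have hTn : 0 ≤ T q (n + 1) := T_nonneg (adm_of_two hq) _
    rw [abs_mul, hsab, one_mul, abs_mul, abs_mul, abs_of_nonneg hTn,
      abs_of_nonneg (by positivity : (0 : ℝ) ≤ (((n + 1 : ℕ) : ℝ) ^ b)⁻¹)]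
    have h1 := hgr n hmn
    have h2 : (((n + 1 : ℕ) : ℝ) ^ b)⁻¹ ≤ (((m : ℝ) + 1) ^ d)⁻¹ * (((n + 1 : ℕ) : ℝ) ^ 2)⁻¹ := by
      rw [hd, pow_add, mul_inv]
      refine mul_le_mul_of_nonneg_right (inv_anti₀ (by positivity) ?_) (by positivity)
      apply pow_le_pow_left₀ (by positivity)
      have : ((m + 1 : ℕ) : ℝ) ≤ n := by exact_mod_cast hmn
      push_cast at this ⊢
      linarith
    calc |hF U c n| * (((n + 1 : ℕ) : ℝ) ^ b)⁻¹ * T q (n + 1) ≤
        (B * ((n : ℝ) + 1) ^ r) * (((n + 1 : ℕ) : ℝ) ^ b)⁻¹ * T q (n + 1) :=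
          mul_le_mul_of_nonneg_right (mul_le_mul_of_nonneg_right (hbd n) (by positivity)) hTn
      _ = B * (((n : ℝ) + 1) ^ r * T q (n + 1)) * (((n + 1 : ℕ) : ℝ) ^ b)⁻¹ := by ring
      _ ≤ B * (Q * T q (m + 1)) * ((((m : ℝ) + 1) ^ d)⁻¹ * (((n + 1 : ℕ) : ℝ) ^ 2)⁻¹) :=
          mul_le_mul (mul_le_mul_of_nonneg_left h1 hB.le) h2 (by positivity) (by positivity)
      _ = _ := by ring

theorem fin_len_pre (L : ℕ) : ∀ (U : Finset (List ℕ)) (c : List ℕ → ℝ), (∀ u ∈ U, ∀ x ∈ u, 1 ≤ x) →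
    (∃ u ∈ U, c u ≠ 0) → {s | s ∈ Zp U c ∧ s.length ≤ L}.Finite := by
  classical
  induction L with
  | zero =>
    intro U c _ _
    refine Set.Finite.subset (Set.finite_empty) fun s hs => ?_
    exact absurd (List.length_eq_zero_iff.1 (Nat.le_zero.1 hs.2)) hs.1.1
  | succ L ih =>
    intro U c hU hc
    obtain ⟨M, hM⟩ := last_lt hU hc
    have hsub : {s | s ∈ Zp U c ∧ s.length ≤ L + 1} ⊆ ⋃ b ∈ (Finset.range M).filter (1 ≤ ·),
        ({[b]} ∪ (fun t => t ++ [b]) '' {t | t ∈ Zp (U.image fun u => b :: u)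
          (fun w => c w.tail) ∧ t.length ≤ L}) := by
      rintro s ⟨hs, hlen⟩
      obtain ⟨q, b, rfl⟩ : ∃ q b, s = q ++ [b] :=
        ⟨s.dropLast, s.getLast hs.1, (List.dropLast_append_getLast hs.1).symm⟩
      rw [List.length_append, List.length_singleton] at hlen
      have hb : b < M := hM q b hs
      obtain ⟨hq, hb2, hz⟩ := mem_zp hs
      refine Set.mem_biUnion (x := b) ?_ ?_
      · simp only [Finset.coe_filter, Finset.mem_range, Set.mem_setOf_eq]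
        omega
      by_cases ht : q = []
      · left
        rw [ht]
        rfl
      · right
        refine ⟨q, ⟨⟨ht, hq, ?_⟩, by omega⟩, rfl⟩
        rw [Finset.sum_image]
        · rw [← hz]
          refine Finset.sum_congr rfl fun u _ => ?_
          rfl
        · intro u _ v _ huv
          exact (List.cons.inj huv).2
    refine Set.Finite.subset ?_ hsub
    refine Set.Finite.biUnion (Finset.finite_toSet _) fun b hb => ?_
    have hb1 : 1 ≤ b := (Finset.mem_filter.1 (Finset.mem_coe.1 hb)).2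
    refine (Set.finite_singleton _).union (Set.Finite.image _ (ih _ _ ?_ ?_))
    · intro w hw x hx
      obtain ⟨u, hu, rfl⟩ := Finset.mem_image.1 hw
      rcases List.mem_cons.1 hx with rfl | hx
      · exact hb1
      · exact hU u hu x hx
    · obtain ⟨u, hu, h⟩ := hc
      exact ⟨b :: u, Finset.mem_image_of_mem _ hu, h⟩

/-- **finitely many common first parts with letters at least two** -/
theorem prefix_finite (U : Finset (List ℕ)) (c : List ℕ → ℝ) (hU : ∀ u ∈ U, ∀ x ∈ u, 1 ≤ x)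
    (hc : ∃ u ∈ U, c u ≠ 0) : (Zp U c).Finite := by
  obtain ⟨L, hL⟩ := len_lt hU hc
  refine (fin_len_pre (L + 1) U c hU hc).subset fun s hs => ⟨hs, ?_⟩
  obtain ⟨q, b, rfl⟩ : ∃ q b, s = q ++ [b] :=
    ⟨s.dropLast, s.getLast hs.1, (List.dropLast_append_getLast hs.1).symm⟩
  have := hL q b hs
  rw [List.length_append, List.length_singleton]
  omega

end Run7.h53.FW
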